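import Pool.Agent.H.MP_1eaa31_an.A

namespace Pool.Agent.Results.MP_1eaa31_an.No

open Pool.Agent.H.MP_1eaa31_an

theorem result (K L : Type*) [TopologicalSpace K] [CompactSpace K] [T2Space K] [Infinite K]
    [TopologicalSpace L] [CompactSpace L] [T2Space L] [Infinite L] (h : Sick (K × L)) :
    TopologicalSpace.MetrizableSpace (K × L) := by
  obtain ⟨E, _, x, T, _, -, h1, h2, h3, -⟩ := h
  have := core h3 h1 fun y hy => ideal h2 hy
  let T' : C(L × K, ℝ) →ₗ[ℝ] E :=
    { toFun := fun a => T (a.comp ContinuousMap.prodSwap)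
      map_add' := fun a b => by rw [← map_add]; rfl
      map_smul' := fun c a => by rw [← map_smul]; rfl }
  have := core (T := T') (fun f g => h3 (f.comp _) (g.comp _))
    (fun f g k => ContinuousMap.ext fun q => DFunLike.congr_fun (h1 k) q.swap) fun y hy => by
      obtain ⟨f, hf⟩ := ideal h2 (g := 1) hy
      exact ⟨f.comp ContinuousMap.prodSwap, hf⟩
  infer_instance

end Pool.Agent.Results.MP_1eaa31_an.No
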